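import Mathlib
import Pool.Agent.Y555.PCP.Defs
import Pool.Agent.Y555.PCP.Comp

/-!
# The Post correspondence problem for free groups of fixed ranks is undecidable

There is `n₀` such that for all `n ≥ n₀` and all `m ≥ 2` no algorithm decides, for homomorphisms
`φ, ψ : F_n → F_m` given by tuples of reduced words, whether `φ(x) = ψ(x)` for some `x ≠ 1`. (In
the proof `φ` is a fixed injective homomorphism and only `ψ` varies.)

Idea of the proof. Let `F` be the free group on the letters `Γ ∪ {#}` and let a finite automaton
whose letters act as permutations of the states read words from the right and write words; `#`
writes `#` and the other letters write words without `#`. The elements `h` that fix the initial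
state form a subgroup `H` of finite index, and the output `c : H → F` is a homomorphism. Let `u_t`
be the successive contents when the automaton reads `# u_t` and writes `# u_{t+1}`, and put
`s = # u_0`. Then `c(h) = s h s⁻¹` has a nontrivial solution `h ∈ H` if the contents and states
are eventually periodic, and has only the solution `h = 1` if the contents are pairwise different:
all conjugates of `h` by `# u_{t-1} ⋯ # u_0` then have no more letters `#^{±1}` than `h`, so that
two rays in the tree of the kernel of `F → ⟨Γ⟩` stay at bounded distance. Permutation automata
simulate the iteration of affine maps on residue classes (generalized Collatz maps), with a clock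
that grows as long as the iteration does not halt.
-/

set_option autoImplicit false

namespace Pool.Agent.Results.MP_d61eec_lc.Undecidable

open Pool.Agent.Y555.PCP

/-- There is `n₀ ≥ 1` such that for all `n ≥ n₀` and all `m ≥ 2` no algorithm decides whether two
homomorphisms from the free group of rank `n` to the free group of rank `m`, given by tuples of
reduced words, agree on a nontrivial element. -/
theorem result : ∃ n₀ : ℕ, 1 ≤ n₀ ∧ ∀ n, n₀ ≤ n → ∀ m, 2 ≤ m → ¬ HasAlgorithm n m :=
  main_result'

end Pool.Agent.Results.MP_d61eec_lc.Undecidable
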